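import Mathlib

set_option autoImplicit false

namespace Pool.Agent.Lib.MP_71509e_al

universe w

/-- The lattice `F` is a free lattice on the subset `X`: it is generated by `X` as a lattice, and
every map from `X` into a lattice `L` extends to a lattice homomorphism `F → L`. -/
def IsFreeLatticeOn (F : Type w) [Lattice F] (X : Set F) : Prop :=
  latticeClosure X = Set.univ ∧
    ∀ (L : Type w) [Lattice L] (f : X → L), ∃ g : LatticeHom F L, ∀ x : X, g x = f x

end Pool.Agent.Lib.MP_71509e_al
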