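import Mathlib
import Pool.Agent.Lib.MP_71509e_al.Defs

set_option autoImplicit false

namespace Pool.Agent.Lib.MP_71509e_al

universe u v w w'

/-! ### Interpolation in a free lattice -/

section interp
variable {F : Type w} [Lattice F]

/-- values of lattice terms of depth at most `n` over `Y` -/
def lvl (Y : Set F) : ℕ → Set F
  | 0 => Y
  | n + 1 => lvl Y n ∪ (Set.image2 (· ⊔ ·) (lvl Y n) (lvl Y n) ∪
      Set.image2 (· ⊓ ·) (lvl Y n) (lvl Y n))

theorem lvl_finite {Y : Set F} (h : Y.Finite) : ∀ n, (lvl Y n).Finite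
  | 0 => h
  | n + 1 => (lvl_finite h n).union
      (((lvl_finite h n).image2 _ (lvl_finite h n)).union
        ((lvl_finite h n).image2 _ (lvl_finite h n)))

theorem lvl_mono_set {Y Y' : Set F} (h : Y ⊆ Y') : ∀ n, lvl Y n ⊆ lvl Y' n
  | 0 => h
  | n + 1 => Set.union_subset_union (lvl_mono_set h n)
      (Set.union_subset_union (Set.image2_subset (lvl_mono_set h n) (lvl_mono_set h n))
        (Set.image2_subset (lvl_mono_set h n) (lvl_mono_set h n)))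

theorem lvl_mono_nat (Y : Set F) {n m : ℕ} (h : n ≤ m) : lvl Y n ⊆ lvl Y m := by
  induction h with
  | refl => exact Set.Subset.refl _
  | step _ ih => exact ih.trans Set.subset_union_left

theorem lvl_sup {Y : Set F} {n : ℕ} {a b : F} (ha : a ∈ lvl Y n) (hb : b ∈ lvl Y n) :
    a ⊔ b ∈ lvl Y (n + 1) := Or.inr (Or.inl ⟨a, ha, b, hb, rfl⟩)

theorem lvl_inf {Y : Set F} {n : ℕ} {a b : F} (ha : a ∈ lvl Y n) (hb : b ∈ lvl Y n) :
    a ⊓ b ∈ lvl Y (n + 1) := Or.inr (Or.inr ⟨a, ha, b, hb, rfl⟩)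

theorem exists_lvl {X : Set F} {a : F} (ha : a ∈ latticeClosure X) :
    ∃ Y ⊆ X, Y.Finite ∧ ∃ n, a ∈ lvl Y n := by
  have aux : ∀ a b : F, (∃ Y ⊆ X, Y.Finite ∧ ∃ n, a ∈ lvl Y n) →
      (∃ Y ⊆ X, Y.Finite ∧ ∃ n, b ∈ lvl Y n) →
      ∃ Y ⊆ X, Y.Finite ∧ ∃ n, a ∈ lvl Y n ∧ b ∈ lvl Y n := by
    rintro a b ⟨Y, h1, h2, n, h3⟩ ⟨Y', h1', h2', n', h3'⟩
    exact ⟨Y ∪ Y', Set.union_subset h1 h1', h2.union h2', max n n',
      lvl_mono_nat _ (le_max_left _ _) (lvl_mono_set Set.subset_union_left _ h3),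
      lvl_mono_nat _ (le_max_right _ _) (lvl_mono_set Set.subset_union_right _ h3')⟩
  have : latticeClosure X ⊆ {a | ∃ Y ⊆ X, Y.Finite ∧ ∃ n, a ∈ lvl Y n} := by
    apply latticeClosure_min
    · intro x hx
      exact ⟨{x}, Set.singleton_subset_iff.mpr hx, Set.finite_singleton x, 0, rfl⟩
    · constructor
      · intro a ha b hb
        obtain ⟨Y, h1, h2, n, h3, h4⟩ := aux a b ha hb
        exact ⟨Y, h1, h2, n + 1, lvl_sup h3 h4⟩
      · intro a ha b hb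
        obtain ⟨Y, h1, h2, n, h3, h4⟩ := aux a b ha hb
        exact ⟨Y, h1, h2, n + 1, lvl_inf h3 h4⟩
  exact this ha

theorem up_lemma {G : Type w'} [Lattice G] [OrderTop G] (i h : LatticeHom F G) {Y1 Y : Set F}
    (hY : ∀ x ∈ Y1, (x ∈ Y ∧ h x = i x) ∨ h x = ⊤) :
    ∀ n, ∀ a ∈ lvl Y1 n, i a ≤ h a ∧ (h a = ⊤ ∨ ∃ b ∈ lvl Y n, h a = i b) := by
  intro n
  induction n with
  | zero =>
    intro a ha
    rcases hY a ha with ⟨h1, h2⟩ | h1
    · exact ⟨h2.ge, Or.inr ⟨a, h1, h2⟩⟩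
    · exact ⟨h1 ▸ le_top, Or.inl h1⟩
  | succ n ih =>
    rintro a (ha | ⟨b, hb, c, hc, rfl⟩ | ⟨b, hb, c, hc, rfl⟩)
    · obtain ⟨h1, h2 | ⟨b, h2, h3⟩⟩ := ih a ha
      · exact ⟨h1, Or.inl h2⟩
      · exact ⟨h1, Or.inr ⟨b, Or.inl h2, h3⟩⟩
    · obtain ⟨b1, b2⟩ := ih b hb
      obtain ⟨c1, c2⟩ := ih c hc
      simp only [map_sup]
      refine ⟨sup_le_sup b1 c1, ?_⟩
      rcases b2 with b2 | ⟨b', b2, b3⟩
      · left; rw [b2, top_sup_eq]
      · rcases c2 with c2 | ⟨c', c2, c3⟩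
        · left; rw [c2, sup_top_eq]
        · right; exact ⟨b' ⊔ c', lvl_sup b2 c2, by rw [b3, c3, map_sup]⟩
    · obtain ⟨b1, b2⟩ := ih b hb
      obtain ⟨c1, c2⟩ := ih c hc
      simp only [map_inf]
      refine ⟨inf_le_inf b1 c1, ?_⟩
      rcases b2 with b2 | ⟨b', b2, b3⟩
      · rcases c2 with c2 | ⟨c', c2, c3⟩
        · left; rw [b2, c2, inf_idem]
        · right; exact ⟨c', Or.inl c2, by rw [b2, c3, top_inf_eq]⟩
      · rcases c2 with c2 | ⟨c', c2, c3⟩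
        · right; exact ⟨b', Or.inl b2, by rw [c2, b3, inf_top_eq]⟩
        · right; exact ⟨b' ⊓ c', lvl_inf b2 c2, by rw [b3, c3, map_inf]⟩

theorem down_lemma {G : Type w'} [Lattice G] [OrderBot G] (i h : LatticeHom F G) {Y1 Y : Set F}
    (hY : ∀ x ∈ Y1, (x ∈ Y ∧ h x = i x) ∨ h x = ⊥) :
    ∀ n, ∀ a ∈ lvl Y1 n, h a ≤ i a ∧ (h a = ⊥ ∨ ∃ b ∈ lvl Y n, h a = i b) := by
  intro n
  induction n with
  | zero =>
    intro a ha
    rcases hY a ha with ⟨h1, h2⟩ | h1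
    · exact ⟨h2.le, Or.inr ⟨a, h1, h2⟩⟩
    · exact ⟨h1 ▸ bot_le, Or.inl h1⟩
  | succ n ih =>
    rintro a (ha | ⟨b, hb, c, hc, rfl⟩ | ⟨b, hb, c, hc, rfl⟩)
    · obtain ⟨h1, h2 | ⟨b, h2, h3⟩⟩ := ih a ha
      · exact ⟨h1, Or.inl h2⟩
      · exact ⟨h1, Or.inr ⟨b, Or.inl h2, h3⟩⟩
    · obtain ⟨b1, b2⟩ := ih b hb
      obtain ⟨c1, c2⟩ := ih c hc
      simp only [map_sup]
      refine ⟨sup_le_sup b1 c1, ?_⟩
      rcases b2 with b2 | ⟨b', b2, b3⟩
      · rcases c2 with c2 | ⟨c', c2, c3⟩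
        · left; rw [b2, c2, sup_idem]
        · right; exact ⟨c', Or.inl c2, by rw [b2, c3, bot_sup_eq]⟩
      · rcases c2 with c2 | ⟨c', c2, c3⟩
        · right; exact ⟨b', Or.inl b2, by rw [c2, b3, sup_bot_eq]⟩
        · right; exact ⟨b' ⊔ c', lvl_sup b2 c2, by rw [b3, c3, map_sup]⟩
    · obtain ⟨b1, b2⟩ := ih b hb
      obtain ⟨c1, c2⟩ := ih c hc
      simp only [map_inf]
      refine ⟨inf_le_inf b1 c1, ?_⟩
      rcases b2 with b2 | ⟨b', b2, b3⟩
      · left; rw [b2, bot_inf_eq]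
      · rcases c2 with c2 | ⟨c', c2, c3⟩
        · left; rw [c2, inf_bot_eq]
        · right; exact ⟨b' ⊓ c', lvl_inf b2 c2, by rw [b3, c3, map_inf]⟩

/-- the inclusion into the lattice with a new bottom and a new top -/
def incl : LatticeHom F (WithTop (WithBot F)) where
  toFun a := ((a : WithBot F) : WithTop (WithBot F))
  map_sup' _ _ := rfl
  map_inf' _ _ := rfl

theorem incl_le {a b : F} : incl a ≤ incl b ↔ a ≤ b := by
  change ((a : WithBot F) : WithTop (WithBot F)) ≤ ((b : WithBot F) : WithTop (WithBot F)) ↔ _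
  rw [WithTop.coe_le_coe, WithBot.coe_le_coe]

theorem incl_ne_top (a : F) : incl a ≠ ⊤ := WithTop.coe_ne_top

theorem incl_ne_bot (a : F) : incl a ≠ ⊥ := by
  change ((a : WithBot F) : WithTop (WithBot F)) ≠ ((⊥ : WithBot F) : WithTop (WithBot F))
  intro h
  exact WithBot.coe_ne_bot (WithTop.coe_injective h)

theorem interpolate {X : Set F} (hX : IsFreeLatticeOn F X) {Y1 Y2 : Set F} (h1 : Y1 ⊆ X)
    (h2 : Y2 ⊆ X) {n m : ℕ} {a b : F} (ha : a ∈ lvl Y1 n) (hb : b ∈ lvl Y2 m) (hab : a ≤ b) :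
    ∃ z, z ∈ lvl Y1 n ∧ z ∈ lvl Y2 m ∧ a ≤ z ∧ z ≤ b := by
  classical
  obtain ⟨h, hh⟩ := hX.2 (WithTop (WithBot F))
    (fun x => if (x : F) ∈ Y1 then (if (x : F) ∈ Y2 then incl (x : F) else ⊤) else ⊥)
  obtain ⟨a1, a2⟩ := up_lemma incl h (Y1 := Y1) (Y := Y1 ∩ Y2) (by
    intro x hx
    have := hh ⟨x, h1 hx⟩
    by_cases hx2 : x ∈ Y2
    · left; exact ⟨⟨hx, hx2⟩, by simpa [hx, hx2] using this⟩
    · right; simpa [hx, hx2] using this) n a ha
  obtain ⟨b1, b2⟩ := down_lemma incl h (Y1 := Y2) (Y := Y1 ∩ Y2) (by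
    intro x hx
    have := hh ⟨x, h2 hx⟩
    by_cases hx2 : x ∈ Y1
    · left; exact ⟨⟨hx2, hx⟩, by simpa [hx, hx2] using this⟩
    · right; simpa [hx, hx2] using this) m b hb
  have hm : h a ≤ h b := OrderHomClass.mono h hab
  rcases a2 with a2 | ⟨a', a2, a3⟩
  · exact absurd (top_le_iff.mp (a2 ▸ hm.trans b1)) (incl_ne_top b)
  rcases b2 with b2 | ⟨b', b2, b3⟩
  · exact absurd (le_bot_iff.mp (b2 ▸ a1.trans hm)) (incl_ne_bot a)
  rw [a3] at a1 hm
  rw [b3] at b1 hm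
  rw [incl_le] at a1 b1 hm
  rcases le_total n m with hnm | hnm
  · exact ⟨a', lvl_mono_set Set.inter_subset_left _ a2,
      lvl_mono_nat _ hnm (lvl_mono_set Set.inter_subset_right _ a2), a1, hm.trans b1⟩
  · exact ⟨b', lvl_mono_nat _ hnm (lvl_mono_set Set.inter_subset_left _ b2),
      lvl_mono_set Set.inter_subset_right _ b2, a1.trans hm, b1⟩

theorem exists_sep {X : Set F} (hX : IsFreeLatticeOn F X) :
    ∃ A : F → Set F, (∀ a, (A a).Finite) ∧
      ∀ a b, a ≤ b → ∃ z, z ∈ A a ∧ z ∈ A b ∧ a ≤ z ∧ z ≤ b := by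
  have := fun a : F => exists_lvl (X := X) (a := a) (hX.1 ▸ Set.mem_univ a)
  choose Y h1 h2 n h3 using this
  exact ⟨fun a => lvl (Y a) (n a), fun a => lvl_finite (h2 a) _,
    fun a b hab => interpolate hX (h1 a) (h1 b) (h3 a) (h3 b) hab⟩

end interp

/-! ### Construction of the free lattice -/

/-- lattice terms -/
inductive Term (X : Type w) : Type w
  | var : X → Term X
  | sup : Term X → Term X → Term X
  | inf : Term X → Term X → Term X

/-- the least quasi-order on terms making `sup` a join and `inf` a meet -/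
inductive Le {X : Type w} : Term X → Term X → Prop
  | refl (a : Term X) : Le a a
  | trans {a b c : Term X} : Le a b → Le b c → Le a c
  | le_sup_left (a b : Term X) : Le a (a.sup b)
  | le_sup_right (a b : Term X) : Le b (a.sup b)
  | sup_le {a b c : Term X} : Le a c → Le b c → Le (a.sup b) c
  | inf_le_left (a b : Term X) : Le (a.inf b) a
  | inf_le_right (a b : Term X) : Le (a.inf b) b
  | le_inf {a b c : Term X} : Le a b → Le a c → Le a (b.inf c)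

instance termPreorder (X : Type w) : Preorder (Term X) where
  le := Le
  le_refl := Le.refl
  le_trans _ _ _ := Le.trans

/-- the free lattice -/
def FL (X : Type w) : Type w := Antisymmetrization (Term X) (· ≤ ·)

instance flPartialOrder (X : Type w) : PartialOrder (FL X) :=
  inferInstanceAs (PartialOrder (Antisymmetrization (Term X) (· ≤ ·)))

/-- class of a term -/
def mk {X : Type w} (a : Term X) : FL X := toAntisymmetrization (· ≤ ·) a

theorem mk_le {X : Type w} {a b : Term X} : mk a ≤ mk b ↔ Le a b :=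
  toAntisymmetrization_le_toAntisymmetrization_iff

theorem mk_surj {X : Type w} (a : FL X) : ∃ t, mk t = a := Quotient.exists_rep a

/-- join -/
def flSup {X : Type w} : FL X → FL X → FL X :=
  Quotient.map₂ Term.sup (fun _ _ h _ _ h' =>
    ⟨Le.sup_le (Le.trans h.1 (Le.le_sup_left _ _)) (Le.trans h'.1 (Le.le_sup_right _ _)),
     Le.sup_le (Le.trans h.2 (Le.le_sup_left _ _)) (Le.trans h'.2 (Le.le_sup_right _ _))⟩)

/-- meet -/
def flInf {X : Type w} : FL X → FL X → FL X :=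
  Quotient.map₂ Term.inf (fun _ _ h _ _ h' =>
    ⟨Le.le_inf (Le.trans (Le.inf_le_left _ _) h.1) (Le.trans (Le.inf_le_right _ _) h'.1),
     Le.le_inf (Le.trans (Le.inf_le_left _ _) h.2) (Le.trans (Le.inf_le_right _ _) h'.2)⟩)

instance flLattice (X : Type w) : Lattice (FL X) where
  sup := flSup
  inf := flInf
  le_sup_left a b := by
    obtain ⟨a, rfl⟩ := mk_surj a
    obtain ⟨b, rfl⟩ := mk_surj b
    exact mk_le.mpr (Le.le_sup_left a b)
  le_sup_right a b := by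
    obtain ⟨a, rfl⟩ := mk_surj a
    obtain ⟨b, rfl⟩ := mk_surj b
    exact mk_le.mpr (Le.le_sup_right a b)
  sup_le a b c h1 h2 := by
    obtain ⟨a, rfl⟩ := mk_surj a
    obtain ⟨b, rfl⟩ := mk_surj b
    obtain ⟨c, rfl⟩ := mk_surj c
    exact mk_le.mpr (Le.sup_le (mk_le.mp h1) (mk_le.mp h2))
  inf_le_left a b := by
    obtain ⟨a, rfl⟩ := mk_surj a
    obtain ⟨b, rfl⟩ := mk_surj b
    exact mk_le.mpr (Le.inf_le_left a b)
  inf_le_right a b := by
    obtain ⟨a, rfl⟩ := mk_surj a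
    obtain ⟨b, rfl⟩ := mk_surj b
    exact mk_le.mpr (Le.inf_le_right a b)
  le_inf a b c h1 h2 := by
    obtain ⟨a, rfl⟩ := mk_surj a
    obtain ⟨b, rfl⟩ := mk_surj b
    obtain ⟨c, rfl⟩ := mk_surj c
    exact mk_le.mpr (Le.le_inf (mk_le.mp h1) (mk_le.mp h2))

/-- evaluation of a term -/
def eval {X : Type w} {L : Type w'} [Lattice L] (f : X → L) : Term X → L
  | .var x => f x
  | .sup a b => eval f a ⊔ eval f b
  | .inf a b => eval f a ⊓ eval f b

theorem eval_le {X : Type w} {L : Type w'} [Lattice L] (f : X → L) {a b : Term X}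
    (h : Le a b) : eval f a ≤ eval f b := by
  induction h with
  | refl a => exact le_rfl
  | trans _ _ h1 h2 => exact h1.trans h2
  | le_sup_left a b => exact le_sup_left
  | le_sup_right a b => exact le_sup_right
  | sup_le _ _ h1 h2 => exact sup_le h1 h2
  | inf_le_left a b => exact inf_le_left
  | inf_le_right a b => exact inf_le_right
  | le_inf _ _ h1 h2 => exact le_inf h1 h2

/-- the homomorphism extending a map on generators -/
def lift {X : Type w} {L : Type w'} [Lattice L] (f : X → L) : LatticeHom (FL X) L where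
  toFun := Quotient.lift (eval f) (fun _ _ h => le_antisymm (eval_le f h.1) (eval_le f h.2))
  map_sup' a b := by
    obtain ⟨a, rfl⟩ := mk_surj a
    obtain ⟨b, rfl⟩ := mk_surj b
    rfl
  map_inf' a b := by
    obtain ⟨a, rfl⟩ := mk_surj a
    obtain ⟨b, rfl⟩ := mk_surj b
    rfl

/-- generators -/
def gen {X : Type w} (x : X) : FL X := mk (.var x)

theorem lift_gen {X : Type w} {L : Type w'} [Lattice L] (f : X → L) (x : X) :
    lift f (gen x) = f x := rfl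

theorem isFree (X : Type w) : IsFreeLatticeOn (FL X) (Set.range gen) := by
  constructor
  · apply Set.eq_univ_of_forall
    intro a
    obtain ⟨t, rfl⟩ := mk_surj a
    induction t with
    | var x => exact subset_latticeClosure ⟨x, rfl⟩
    | sup a b ha hb => exact isSublattice_latticeClosure.supClosed ha hb
    | inf a b ha hb => exact isSublattice_latticeClosure.infClosed ha hb
  · intro L _ f
    refine ⟨lift (fun x => f ⟨gen x, x, rfl⟩), ?_⟩
    rintro ⟨_, x, rfl⟩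
    rfl

/-! ### The characterisation -/

theorem forward {P : Type u} [PartialOrder P] (hP : ∀ a b c : P, ¬ (a < b ∧ b < c))
    {F : Type w} [Lattice F] {X : Set F} (hX : IsFreeLatticeOn F X) (φ : P ↪o F) :
    ∃ 𝓕 : Set (Set P × Set P), (∀ C ∈ 𝓕, ∀ x ∈ C.1, ∀ y ∈ C.2, x < y) ∧
      (∀ x y : P, x < y → ∃ C ∈ 𝓕, x ∈ C.1 ∧ y ∈ C.2) ∧
      ∀ x : P, {C ∈ 𝓕 | x ∈ C.1 ∨ x ∈ C.2}.Finite := by
  obtain ⟨A, hA, hsep⟩ := exists_sep hX
  let C : F → Set P × Set P := fun z =>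
    ({x | (∃ y, x < y) ∧ z ∈ A (φ x) ∧ φ x ≤ z}, {y | (∃ x, x < y) ∧ z ∈ A (φ y) ∧ z ≤ φ y})
  refine ⟨Set.range C, ?_, ?_, ?_⟩
  · rintro _ ⟨z, rfl⟩ x ⟨⟨y', h1⟩, _, h2⟩ y ⟨⟨x', h3⟩, _, h4⟩
    refine lt_of_le_of_ne (φ.le_iff_le.mp (h2.trans h4)) ?_
    rintro rfl
    exact hP _ _ _ ⟨h3, h1⟩
  · intro x y hxy
    obtain ⟨z, h1, h2, h3, h4⟩ := hsep (φ x) (φ y) (φ.le_iff_le.mpr hxy.le)
    exact ⟨C z, ⟨z, rfl⟩, ⟨⟨y, hxy⟩, h1, h3⟩, ⟨⟨x, hxy⟩, h2, h4⟩⟩
  · intro x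
    refine ((hA (φ x)).image C).subset ?_
    rintro _ ⟨⟨z, rfl⟩, h | h⟩
    · exact ⟨z, h.2.1, rfl⟩
    · exact ⟨z, h.2.1, rfl⟩

theorem backward {P : Type u} [PartialOrder P] (hP : ∀ a b c : P, ¬ (a < b ∧ b < c))
    (𝓕 : Set (Set P × Set P)) (h1 : ∀ C ∈ 𝓕, ∀ x ∈ C.1, ∀ y ∈ C.2, x < y)
    (h2 : ∀ x y : P, x < y → ∃ C ∈ 𝓕, x ∈ C.1 ∧ y ∈ C.2)
    (h3 : ∀ x : P, {C ∈ 𝓕 | x ∈ C.1 ∨ x ∈ C.2}.Finite) :
    Nonempty (P ↪o FL (ULift.{v} (P ⊕ (Set P × Set P)))) := by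
  classical
  have f1 : ∀ x : P, {C ∈ 𝓕 | x ∈ C.1}.Finite :=
    fun x => (h3 x).subset (fun C hC => ⟨hC.1, Or.inl hC.2⟩)
  have f2 : ∀ x : P, {C ∈ 𝓕 | x ∈ C.2}.Finite :=
    fun x => (h3 x).subset (fun C hC => ⟨hC.1, Or.inr hC.2⟩)
  let T1 : P → Finset (P ⊕ (Set P × Set P)) :=
    fun x => insert (Sum.inl x) ((f1 x).toFinset.image Sum.inr)
  let T2 : P → Finset (P ⊕ (Set P × Set P)) :=
    fun x => insert (Sum.inl x) ((f2 x).toFinset.image Sum.inr)
  have n1 : ∀ x, (T1 x).Nonempty := fun x => Finset.insert_nonempty _ _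
  have n2 : ∀ x, (T2 x).Nonempty := fun x => Finset.insert_nonempty _ _
  have l1 : ∀ x y, Sum.inl y ∈ T1 x ↔ y = x := fun x y => by simp [T1]
  have r1 : ∀ x C, Sum.inr C ∈ T1 x ↔ C ∈ 𝓕 ∧ x ∈ C.1 := fun x C => by simp [T1]
  have l2 : ∀ x y, Sum.inl y ∈ T2 x ↔ y = x := fun x y => by simp [T2]
  have r2 : ∀ x C, Sum.inr C ∈ T2 x ↔ C ∈ 𝓕 ∧ x ∈ C.2 := fun x C => by simp [T2]
  let g : P ⊕ (Set P × Set P) → FL (ULift.{v} (P ⊕ (Set P × Set P))) := fun a => gen ⟨a⟩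
  let φ : P → FL (ULift.{v} (P ⊕ (Set P × Set P))) :=
    fun x => if ∃ y, x < y then (T1 x).inf' (n1 x) g else (T2 x).sup' (n2 x) g
  let e : Set (P ⊕ (Set P × Set P)) → LatticeHom (FL (ULift.{v} (P ⊕ (Set P × Set P)))) Prop :=
    fun S => lift (fun a => a.down ∈ S)
  have e1 : ∀ S x, e S ((T1 x).inf' (n1 x) g) ↔ ∀ a ∈ T1 x, a ∈ S := by
    intro S x
    rw [map_finset_inf' (e S)]
    constructor
    · intro h a ha
      exact (Finset.inf'_le (e S ∘ g) ha) h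
    · intro h
      exact (Finset.le_inf' (n1 x) (e S ∘ g) (a := True) (fun a ha _ => h a ha)) trivial
  have e2 : ∀ S x, e S ((T2 x).sup' (n2 x) g) ↔ ∃ a ∈ T2 x, a ∈ S := by
    intro S x
    rw [map_finset_sup' (e S)]
    constructor
    · intro h
      exact (Finset.sup'_le (n2 x) (e S ∘ g) (a := ∃ a ∈ T2 x, a ∈ S)
        (fun a ha h' => ⟨a, ha, h'⟩)) h
    · rintro ⟨a, ha, h⟩
      exact (Finset.le_sup' (e S ∘ g) ha) h
  refine ⟨OrderEmbedding.ofMapLEIff φ (fun x y => ⟨fun h => ?_, fun h => ?_⟩)⟩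
  · by_cases hx : ∃ y, x < y
    · have hm : e (T1 x) (φ x) ≤ e (T1 x) (φ y) := OrderHomClass.mono _ h
      have hy := hm (by simp only [φ, if_pos hx]; exact (e1 _ x).mpr (fun a ha => ha))
      by_cases hy' : ∃ z, y < z
      · simp only [φ, if_pos hy'] at hy
        exact ((l1 x y).mp ((e1 _ y).mp hy _ ((l1 y y).mpr rfl))).ge
      · simp only [φ, if_neg hy'] at hy
        obtain ⟨a | C, ha, ha'⟩ := (e2 _ y).mp hy
        · exact (((l1 x a).mp ha').symm.trans ((l2 y a).mp ha)).le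
        · exact (h1 C ((r1 x C).mp ha').1 x ((r1 x C).mp ha').2 y ((r2 y C).mp ha).2).le
    · have hm : e {Sum.inl x} (φ x) ≤ e {Sum.inl x} (φ y) := OrderHomClass.mono _ h
      have hy := hm (by
        simp only [φ, if_neg hx]; exact (e2 _ x).mpr ⟨_, (l2 x x).mpr rfl, rfl⟩)
      by_cases hy' : ∃ z, y < z
      · simp only [φ, if_pos hy'] at hy
        exact (Sum.inl.inj ((e1 _ y).mp hy _ ((l1 y y).mpr rfl))).ge
      · simp only [φ, if_neg hy'] at hy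
        obtain ⟨a, ha, ha'⟩ := (e2 _ y).mp hy
        rw [Set.mem_singleton_iff.mp ha'] at ha
        exact ((l2 y x).mp ha).le
  · rcases eq_or_lt_of_le h with rfl | h
    · exact le_rfl
    · obtain ⟨C, hC, hx, hy⟩ := h2 x y h
      have hy' : ¬ ∃ z, y < z := fun ⟨z, hz⟩ => hP _ _ _ ⟨h, hz⟩
      simp only [φ, if_pos (show ∃ y, x < y from ⟨y, h⟩), if_neg hy']
      exact (Finset.inf'_le g ((r1 x C).mpr ⟨hC, hx⟩)).trans
        (Finset.le_sup' g ((r2 y C).mpr ⟨hC, hy⟩))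

end Pool.Agent.Lib.MP_71509e_al
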